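import Pool.Agent.L7h99.LS.Defs
import Pool.Agent.Helper717.LT.P_H_approx
import Pool.Agent.Helper717.LT.P_split_complex
import Pool.Agent.Helper717.LT.P_gram_complex

set_option autoImplicit false

/-!
Project LS (helper99), part WRAP: from smooth real families to orthonormal systems in `H¹`
(after `Helper717/LT/P_H_real.lean` and `P_final_thm.lean`).
-/

open MeasureTheory Set Filter Topology Real
open scoped Matrix

namespace Pool.Agent.L7h47.LS

open LTd Pool.Agent.L7h99.LS

theorem H_real' (d : ℕ) (K N₀ : ℝ) (hK : 0 < K) (hcore : Core d K N₀) (n : ℕ)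
    (f : Fin n → (Fin d → ℝ) → ℝ)
    (g : Fin n → Fin d → (Fin d → ℝ) → ℝ) (hf : ∀ i, WGrad (f i) (g i))
    (hG : ∀ v : Fin n → ℝ, ∫ x, (∑ i, v i * f i x) ^ 2 ≤ ∑ i, v i ^ 2)
    (hmass : ∑ i, ∫ x, f i x ^ 2 ≤ N₀) :
    Integrable (fun x => (∑ i, f i x ^ 2) ^ (1 + 2 / (d : ℝ))) ∧
    K * ∫ x, (∑ i, f i x ^ 2) ^ (1 + 2 / (d : ℝ)) ≤
      ∫ x, ∑ j, ∑ i, g i j x ^ 2 := by
  have hp : 0 < 1 + 2 / (d : ℝ) := by positivity
  set p := 1 + 2 / (d : ℝ) with hpdef
  set b := K with hbdef
  have hb : 0 < b := hK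
  set E := ∫ x, ∑ j, ∑ i, g i j x ^ 2 with hE
  have hE0 : 0 ≤ E := integral_nonneg fun x =>
    Finset.sum_nonneg fun j _ => Finset.sum_nonneg fun i _ => sq_nonneg _
  obtain ⟨F, hF1, hF2, hF3, hF4, hF5⟩ := H_approx f g hf
  have hcont : ∀ k, Continuous fun x => (∑ i, F k i x ^ 2) ^ p := by
    intro k
    refine Continuous.rpow_const ?_ (fun x => Or.inr hp.le)
    exact continuous_finsetSum _ fun i _ => ((hF1 k i).continuous.pow 2)
  have hcs : ∀ k, HasCompactSupport fun x => (∑ i, F k i x ^ 2) ^ p := by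
    intro k
    refine HasCompactSupport.intro (K := ⋃ i, tsupport (F k i))
      (isCompact_iUnion fun i => hF2 k i) ?_
    intro x hx
    have : ∀ i, F k i x = 0 := by
      intro i
      by_contra h
      exact hx (mem_iUnion.2 ⟨i, subset_tsupport _ h⟩)
    simp only [this]
    simp [Real.zero_rpow hp.ne']
  have hint : ∀ k, Integrable fun x => (∑ i, F k i x ^ 2) ^ p := fun k =>
    (hcont k).integrable_of_hasCompactSupport (hcs k)
  have hnn : ∀ k x, 0 ≤ (∑ i, F k i x ^ 2) ^ p := fun k x =>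
    Real.rpow_nonneg (Finset.sum_nonneg fun i _ => sq_nonneg _) _
  have hnn' : ∀ x, 0 ≤ (∑ i, f i x ^ 2) ^ p := fun x =>
    Real.rpow_nonneg (Finset.sum_nonneg fun i _ => sq_nonneg _) _
  -- the mass of the approximations
  have hmassk : ∀ k, ∫ x, ∑ i, F k i x ^ 2 ≤ N₀ := by
    intro k
    have hI : ∀ i, Integrable (fun x => F k i x ^ 2) := by
      intro i
      refine ((hF1 k i).continuous.pow 2).integrable_of_hasCompactSupport ?_
      have := (hF2 k i).comp_left (g := fun t : ℝ => t ^ 2) (by simp)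
      exact this
    rw [integral_finsetSum _ (fun i _ => hI i)]
    refine le_trans (Finset.sum_le_sum fun i _ => ?_) hmass
    have h := hF3 k (Pi.single i 1)
    have e1 : ∀ w : Fin n → ℝ, ∑ j, (Pi.single i (1:ℝ) : Fin n → ℝ) j * w j = w i := by
      intro w
      rw [Finset.sum_eq_single i]
      · simp
      · intro j _ hj; simp [Pi.single_apply, hj]
      · intro h; exact absurd (Finset.mem_univ i) h
    simp only [e1] at h
    exact h
  have hbound : ∀ k : ℕ, ∫ x, (∑ i, F k i x ^ 2) ^ p ≤ (E + 1 / ((k:ℝ) + 1)) / b := by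
    intro k
    rw [le_div_iff₀' hb]
    exact (hcore n (F k) (hF1 k) (hF2 k) (fun v => (hF3 k v).trans (hG v)) (hmassk k)).trans (hF5 k)
  have hlim : ∀ᵐ x, Tendsto (fun k => (∑ i, F k i x ^ 2) ^ p) atTop (𝓝 ((∑ i, f i x ^ 2) ^ p)) := by
    filter_upwards [hF4] with x hx
    exact (tendsto_finsetSum _ fun i _ => (hx i).pow 2).rpow_const (Or.inr hp.le)
  have haesm : AEStronglyMeasurable (fun x => (∑ i, f i x ^ 2) ^ p) volume :=
    aestronglyMeasurable_of_tendsto_ae atTop (fun k => (hint k).aestronglyMeasurable) hlim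
  have hfatou : ∫⁻ x, ENNReal.ofReal ((∑ i, f i x ^ 2) ^ p) ≤ ENNReal.ofReal (E / b) := by
    calc ∫⁻ x, ENNReal.ofReal ((∑ i, f i x ^ 2) ^ p)
        = ∫⁻ x, liminf (fun k => ENNReal.ofReal ((∑ i, F k i x ^ 2) ^ p)) atTop := by
          apply lintegral_congr_ae
          filter_upwards [hlim] with x hx
          exact ((ENNReal.continuous_ofReal.tendsto _).comp hx).liminf_eq.symm
      _ ≤ liminf (fun k => ∫⁻ x, ENNReal.ofReal ((∑ i, F k i x ^ 2) ^ p)) atTop :=
          lintegral_liminf_le' fun k => (hcont k).measurable.ennreal_ofReal.aemeasurable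
      _ ≤ liminf (fun k : ℕ => ENNReal.ofReal ((E + 1 / ((k:ℝ) + 1)) / b)) atTop := by
          refine liminf_le_liminf (Eventually.of_forall fun k => ?_)
          change ∫⁻ x, ENNReal.ofReal ((∑ i, F k i x ^ 2) ^ p) ≤ _
          rw [← ofReal_integral_eq_lintegral_ofReal (hint k) (Eventually.of_forall (hnn k))]
          exact ENNReal.ofReal_le_ofReal (hbound k)
      _ = ENNReal.ofReal (E / b) := by
          apply Tendsto.liminf_eq
          apply (ENNReal.continuous_ofReal.tendsto _).comp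
          have h1 : Tendsto (fun k : ℕ => (E + 1 / ((k:ℝ) + 1)) / b) atTop (𝓝 ((E + 0) / b)) :=
            (tendsto_one_div_add_atTop_nhds_zero_nat.const_add E).div_const b
          rwa [add_zero] at h1
  have hI : Integrable (fun x => (∑ i, f i x ^ 2) ^ p) := by
    refine ⟨haesm, ?_⟩
    rw [hasFiniteIntegral_iff_ofReal (Eventually.of_forall hnn')]
    exact lt_of_le_of_lt hfatou ENNReal.ofReal_lt_top
  refine ⟨hI, ?_⟩
  rw [← le_div_iff₀' hb, integral_eq_lintegral_of_nonneg_ae (Eventually.of_forall hnn') haesm]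
  exact ENNReal.toReal_le_of_le_ofReal (by positivity) hfatou

theorem t_WRAP : P_WRAP := by
  intro d K N₀ hd hK hcore N u g hN hu ho
  have hsq : ∀ z : ℂ, ‖z‖ ^ 2 = z.re ^ 2 + z.im ^ 2 := by
    intro z
    rw [Complex.sq_norm, Complex.normSq_apply]; ring
  let F : Fin (N + N) → (Fin d → ℝ) → ℝ :=
    Fin.append (fun i x => (u i x).re) (fun i x => (u i x).im)
  let G : Fin (N + N) → Fin d → (Fin d → ℝ) → ℝ :=
    Fin.append (fun i k x => (g i k x).re) (fun i k x => (g i k x).im)
  have hFl : ∀ i, F (Fin.castAdd N i) = fun x => (u i x).re := fun i => Fin.append_left _ _ i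
  have hFr : ∀ i, F (Fin.natAdd N i) = fun x => (u i x).im := fun i => Fin.append_right _ _ i
  have hGl : ∀ i, G (Fin.castAdd N i) = fun k x => (g i k x).re := fun i => Fin.append_left _ _ i
  have hGr : ∀ i, G (Fin.natAdd N i) = fun k x => (g i k x).im := fun i => Fin.append_right _ _ i
  have hW : ∀ i, WGrad (F i) (G i) := by
    intro i
    refine Fin.addCases (fun i => ?_) (fun i => ?_) i
    · rw [hFl, hGl]
      exact (split_complex (hu i)).1
    · rw [hFr, hGr]
      exact (split_complex (hu i)).2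
  have hG : ∀ v : Fin (N + N) → ℝ, ∫ x, (∑ i, v i * F i x) ^ 2 ≤ ∑ i, v i ^ 2 := by
    intro v
    have h1 := gram_complex u (fun i => (hu i).f2) ho (fun i => v (Fin.castAdd N i))
      (fun i => v (Fin.natAdd N i))
    have h2 : ∀ x, ∑ i, v i * F i x = ∑ i : Fin N, (v (Fin.castAdd N i) * (u i x).re +
        v (Fin.natAdd N i) * (u i x).im) := by
      intro x
      rw [Fin.sum_univ_add, Finset.sum_add_distrib]
      simp only [hFl, hFr]
    have h3 : ∑ i, v i ^ 2 = ∑ i : Fin N, (v (Fin.castAdd N i) ^ 2 + v (Fin.natAdd N i) ^ 2) := by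
      rw [Fin.sum_univ_add, Finset.sum_add_distrib]
    simp only [h2]
    rw [h3]
    exact h1
  have hFI : ∀ i, Integrable (fun x => F i x ^ 2) := by
    intro i
    have h1 := (hW i).f2.integrable_norm_pow two_ne_zero
    refine h1.congr (Eventually.of_forall fun x => ?_)
    simp
  have hmass : ∑ i, ∫ x, F i x ^ 2 ≤ N₀ := by
    refine le_trans (le_of_eq ?_) hN
    rw [Fin.sum_univ_add, ← Finset.sum_add_distrib]
    have h1 : ∀ i : Fin N, (∫ x, F (Fin.castAdd N i) x ^ 2) + (∫ x, F (Fin.natAdd N i) x ^ 2) = 1 := by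
      intro i
      rw [← integral_add (hFI _) (hFI _)]
      have h2 : ∀ x, F (Fin.castAdd N i) x ^ 2 + F (Fin.natAdd N i) x ^ 2 = ‖u i x‖ ^ 2 := by
        intro x; rw [hFl, hFr, hsq]
      simp only [h2]
      have h3 := ho i i
      rw [if_pos rfl] at h3
      have h4 : ∀ x, (starRingEnd ℂ) (u i x) * u i x = ((‖u i x‖ ^ 2 : ℝ) : ℂ) := by
        intro x
        rw [← Complex.normSq_eq_conj_mul_self, Complex.normSq_eq_norm_sq]
      simp only [h4] at h3
      rw [integral_complex_ofReal] at h3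
      exact_mod_cast h3
    rw [Finset.sum_congr rfl (fun i _ => h1 i)]
    simp
  have hH := H_real' d K N₀ hK hcore (N + N) F G hW hG hmass
  have hFs : ∀ x, ∑ i, F i x ^ 2 = ∑ i, ‖u i x‖ ^ 2 := by
    intro x
    rw [Fin.sum_univ_add, ← Finset.sum_add_distrib]
    simp only [hFl, hFr, hsq]
  have hGs : ∀ x, ∑ j, ∑ i, G i j x ^ 2 = ∑ i, ∑ j, ‖g i j x‖ ^ 2 := by
    intro x
    rw [Finset.sum_comm, Fin.sum_univ_add, ← Finset.sum_add_distrib]
    refine Finset.sum_congr rfl fun i _ => ?_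
    rw [← Finset.sum_add_distrib]
    simp only [hGl, hGr, hsq]
  simp only [hFs, hGs] at hH
  refine ⟨hH.1, ?_⟩
  have hI : ∀ i k, Integrable (fun x => ‖g i k x‖ ^ 2) := by
    intro i k
    have := (hu i).g2 k
    exact this.integrable_norm_pow two_ne_zero
  have hint : ∫ x, ∑ i, ∑ j, ‖g i j x‖ ^ 2 = ∑ i, ∑ k, ∫ x, ‖g i k x‖ ^ 2 := by
    rw [integral_finsetSum _ (fun i _ => integrable_finsetSum _ (fun k _ => hI i k))]
    refine Finset.sum_congr rfl fun i _ => ?_
    rw [integral_finsetSum _ (fun k _ => hI i k)]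
  rw [hint] at hH
  exact hH.2

end Pool.Agent.L7h47.LS
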